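import Pool.Agent.Q99.CT.Deg

/-!
# Character values at elements of mixed order and subnormalizers: a counterexample

`A` is the dihedral group of order `12`, `W` the wreath product of `A` with a group of order two
(order `288`), and `x = (s, t)` with `s` a rotation of order three and `t` a reflection.  The
subnormalizers of `x_2 = (1, t)` and of `x_3 = (s, 1)` are the whole group, the subnormalizer of
`x` is the normalizer of `⟨x⟩`, of order `48`.  All irreducible characters of the latter have
absolute value at most `1` at `x`, whereas `W` has an irreducible character with value `2` at `x`.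
-/

set_option autoImplicit false
set_option linter.style.haveILetI false

open scoped BigOperators
open Module (finrank)

namespace Pool.Agent.Results.MP_3a6623_al.WreathCounterexample

/-- `χ` is an irreducible complex character of `G`. -/
def IsIrr {G : Type} [Group G] (χ : G → ℂ) : Prop :=
  ∃ (V : Type) (_ : AddCommGroup V) (_ : Module ℂ V) (_ : FiniteDimensional ℂ V)
    (ρ : Representation ℂ G V), ρ.IsIrreducible ∧ χ = ρ.character

/-- The set `Irr^x(G)` of the irreducible characters of `G` that do not vanish at `x`. -/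
def IrrAt (G : Type) [Group G] (x : G) : Type := {χ : G → ℂ // IsIrr χ ∧ χ x ≠ 0}

/-- `H` is a subnormal subgroup of `K`. -/
def Subnormal {G : Type} [Group G] (H K : Subgroup G) : Prop :=
  ∃ (n : ℕ) (c : ℕ → Subgroup G), c 0 = H ∧ c n = K ∧
    ∀ i < n, c i ≤ c (i + 1) ∧ ((c i).subgroupOf (c (i + 1))).Normal

/-- The subnormalizer set `S_G(x)`: all `g` such that `⟨x⟩` is subnormal in `⟨x, g⟩`. -/
def SubSet {G : Type} [Group G] (x : G) : Set G :=
  {g | Subnormal (Subgroup.zpowers x) (Subgroup.closure {x, g})}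

/-- The subnormalizer subgroup `Sub_G(x)`, generated by `S_G(x)`. -/
def Sub {G : Type} [Group G] (x : G) : Subgroup G := Subgroup.closure (SubSet x)

theorem self_mem {G : Type} [Group G] (x : G) : x ∈ Sub x := by
  apply Subgroup.subset_closure
  refine ⟨0, fun _ => Subgroup.zpowers x, rfl, ?_, fun i hi => absurd hi (Nat.not_lt_zero i)⟩
  rw [Set.pair_eq_singleton, Subgroup.zpowers_eq_closure]

/-- `y` is the `p`-part of `x`: the power of `x` of `p`-power order such that the order of
`x * y⁻¹` is prime to `p`. -/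
def IsPPart {G : Type} [Group G] (p : ℕ) (x y : G) : Prop :=
  y ∈ Subgroup.zpowers x ∧ (∃ k : ℕ, orderOf y = p ^ k) ∧ (orderOf (x * y⁻¹)).Coprime p

/-- The degrees of the characters `χ` and `ψ` have the same `p`-part. -/
def SamePart {G H : Type} [Group G] [Group H] (p : ℕ) (χ : G → ℂ) (ψ : H → ℂ) : Prop :=
  ∀ m n : ℕ, χ 1 = m → ψ 1 = n → padicValNat p m = padicValNat p n

/-- The values of `χ` at `x` and of `ψ` at `y` are equal up to sign. -/
def SameUpToSign {G H : Type} (χ : G → ℂ) (x : G) (ψ : H → ℂ) (y : H) : Prop :=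
  χ x = ψ y ∨ χ x = - ψ y

/-- Property (SS) of `(G, y)` for the prime `p`. -/
def SS {G : Type} [Group G] (p : ℕ) (y : G) : Prop :=
  ∃ g : IrrAt G y ≃ IrrAt (Sub y) ⟨y, self_mem y⟩, ∀ χ : IrrAt G y,
    SamePart p χ.1 (g χ).1 ∧ SameUpToSign (g χ).1 ⟨y, self_mem y⟩ χ.1 y

/-- The statement of Q1. -/
def Q1 : Prop :=
  ∀ (G : Type) [Group G] [Finite G] (x : G),
    (∀ p : ℕ, p.Prime → p ∣ orderOf x → ∀ y : G, IsPPart p x y → SS p y) →
    ∃ f : IrrAt G x ≃ IrrAt (Sub x) ⟨x, self_mem x⟩,
      (∀ χ : IrrAt G x, SameUpToSign χ.1 x (f χ).1 ⟨x, self_mem x⟩) ∧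
      ∀ p : ℕ, p.Prime → ∀ y : G, IsPPart p x y →
        (∃ P : Sylow p G, ∀ g ∈ P, g * (x * y⁻¹) = x * y⁻¹ * g) →
        ∀ χ : IrrAt G x, SamePart p χ.1 (f χ).1

section general

variable {G : Type} [Group G]

theorem mem_norm {x g : G} (h : g * x * g⁻¹ = x ∨ g * x * g⁻¹ = x⁻¹) :
    g ∈ Subgroup.normalizer (Subgroup.zpowers x : Set G) := by
  rw [Subgroup.mem_normalizer_iff_map_conj_eq, MonoidHom.map_zpowers]
  have e : (MulAut.conj g : G →* G) x = g * x * g⁻¹ := rfl
  rw [e]
  rcases h with h | h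
  · rw [h]
  · rw [h, Subgroup.zpowers_inv]

theorem zpowers_le_closure (x g : G) : Subgroup.zpowers x ≤ Subgroup.closure {x, g} := by
  rw [Subgroup.zpowers_le]
  exact Subgroup.subset_closure (Set.mem_insert _ _)

/-- Elements normalizing `⟨x⟩` belong to `S_G(x)`. -/
theorem mem_subSet_of_norm {x g : G} (h : g * x * g⁻¹ = x ∨ g * x * g⁻¹ = x⁻¹) : g ∈ SubSet x := by
  refine ⟨1, fun i => match i with
    | 0 => Subgroup.zpowers x
    | _ + 1 => Subgroup.closure {x, g}, rfl, rfl, ?_⟩
  · intro i hi
    have hi0 : i = 0 := by omega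
    subst hi0
    refine ⟨zpowers_le_closure x g, ?_⟩
    change ((Subgroup.zpowers x).subgroupOf (Subgroup.closure {x, g})).Normal
    rw [Subgroup.normal_subgroupOf_iff_le_normalizer (zpowers_le_closure x g),
      Subgroup.closure_le]
    rintro a (rfl | ha)
    · exact mem_norm (Or.inl (by group))
    · rw [Set.mem_singleton_iff] at ha
      rw [ha]
      exact mem_norm h

/-- An involution `g` such that `w` commutes with its conjugate under `g` belongs to `S_G(w)`. -/
theorem mem_subSet_of_invol {w g : G} (hg : g * g = 1)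
    (h : w * (g * w * g⁻¹) = g * w * g⁻¹ * w) : g ∈ SubSet w := by
  set v : G := g * w * g⁻¹ with hv
  have hgi : g⁻¹ = g := by
    rw [inv_eq_iff_mul_eq_one]; exact hg
  have hgv : g * v * g⁻¹ = w := by
    rw [hv, hgi]
    have : g * (g * w * g) * g = g * g * w * (g * g) := by group
    rw [this, hg]; group
  have hvmem : v ∈ Subgroup.closure {w, g} := by
    have h1 : w ∈ Subgroup.closure {w, g} := Subgroup.subset_closure (Set.mem_insert _ _)
    have h2 : g ∈ Subgroup.closure {w, g} :=
      Subgroup.subset_closure (Set.mem_insert_of_mem _ rfl)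
    exact mul_mem (mul_mem h2 h1) (inv_mem h2)
  have hle : Subgroup.closure {w, v} ≤ Subgroup.closure {w, g} := by
    rw [Subgroup.closure_le]
    rintro a (rfl | ha)
    · exact Subgroup.subset_closure (Set.mem_insert _ _)
    · rw [Set.mem_singleton_iff] at ha
      rw [ha]; exact hvmem
  refine ⟨2, fun i => match i with
    | 0 => Subgroup.zpowers w
    | 1 => Subgroup.closure {w, v}
    | _ + 2 => Subgroup.closure {w, g}, rfl, rfl, ?_⟩
  · intro i hi
    have hi0 : i = 0 ∨ i = 1 := by omega
    rcases hi0 with rfl | rfl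
    · refine ⟨zpowers_le_closure w v, ?_⟩
      change ((Subgroup.zpowers w).subgroupOf (Subgroup.closure {w, v})).Normal
      rw [Subgroup.normal_subgroupOf_iff_le_normalizer (zpowers_le_closure w v),
        Subgroup.closure_le]
      rintro a (rfl | ha)
      · exact mem_norm (Or.inl (by group))
      · rw [Set.mem_singleton_iff] at ha
        rw [ha]
        refine mem_norm (Or.inl ?_)
        rw [← h, mul_inv_cancel_right]
    · refine ⟨hle, ?_⟩
      change ((Subgroup.closure {w, v}).subgroupOf (Subgroup.closure {w, g})).Normal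
      rw [Subgroup.normal_subgroupOf_iff_le_normalizer hle]
      have hwm : w ∈ Subgroup.closure {w, v} := Subgroup.subset_closure (Set.mem_insert _ _)
      have hvm : v ∈ Subgroup.closure {w, v} :=
        Subgroup.subset_closure (Set.mem_insert_of_mem _ rfl)
      rw [Subgroup.closure_le]
      have key : ∀ u : G, u ∈ Subgroup.closure {w, v} →
          u ∈ Subgroup.normalizer (Subgroup.closure {w, v} : Set G) :=
        fun u hu => Subgroup.le_normalizer hu
      rintro a (rfl | ha)
      · exact key _ hwm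
      · rw [Set.mem_singleton_iff] at ha
        rw [ha]
        rw [SetLike.mem_coe, Subgroup.mem_normalizer_iff_map_conj_eq, MonoidHom.map_closure]
        congr 1
        rw [Set.image_pair]
        have e1 : (MulAut.conj g : G →* G) w = v := rfl
        have e2 : (MulAut.conj g : G →* G) v = w := hgv
        rw [e1, e2, Set.pair_comm]

/-- If `⟨x⟩` is subnormal in `⟨x, g⟩` then some iterated commutator `[g, x, ..., x]` lies in
`⟨x⟩`. -/
theorem engel {x g : G} (h : g ∈ SubSet x) :
    ∃ n : ℕ, (fun a : G => a⁻¹ * x⁻¹ * a * x)^[n] g ∈ Subgroup.zpowers x := by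
  obtain ⟨n, c, h0, hn, hc⟩ := h
  refine ⟨n, ?_⟩
  have hmono : ∀ i, i ≤ n → Subgroup.zpowers x ≤ c i := by
    intro i
    induction i with
    | zero => intro _; rw [h0]
    | succ i ih => intro hi; exact (ih (by omega)).trans (hc i (by omega)).1
  have key : ∀ j, j ≤ n → (fun a : G => a⁻¹ * x⁻¹ * a * x)^[j] g ∈ c (n - j) := by
    intro j
    induction j with
    | zero =>
      intro _
      rw [Function.iterate_zero_apply, Nat.sub_zero, hn]
      exact Subgroup.subset_closure (Set.mem_insert_of_mem _ rfl)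
    | succ j ih =>
      intro hj
      rw [Function.iterate_succ_apply']
      set a := (fun a : G => a⁻¹ * x⁻¹ * a * x)^[j] g
      have ha : a ∈ c (n - j) := ih (by omega)
      have hi : n - j = n - (j + 1) + 1 := by omega
      obtain ⟨hle, hN⟩ := hc (n - (j + 1)) (by omega)
      rw [← hi] at hle hN
      have hx : x ∈ c (n - (j + 1)) := hmono _ (by omega) (Subgroup.mem_zpowers x)
      rw [Subgroup.normal_subgroupOf_iff hle] at hN
      have h1 := hN x⁻¹ a⁻¹ (inv_mem hx) (inv_mem ha)
      rw [inv_inv] at h1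
      exact mul_mem h1 hx
  have := key n le_rfl
  rwa [Nat.sub_self, h0] at this

/-- If the complement of a set containing `⟨x⟩` is closed under `g ↦ [g, x]`, then the set
contains `S_G(x)`. -/
theorem subSet_le {x : G} (N : Set G) (hx : ∀ g ∈ Subgroup.zpowers x, g ∈ N)
    (hN : ∀ g : G, g ∉ N → g⁻¹ * x⁻¹ * g * x ∉ N) : SubSet x ⊆ N := by
  intro g hg
  by_contra hgN
  obtain ⟨n, hn⟩ := engel hg
  have key : ∀ j, (fun a : G => a⁻¹ * x⁻¹ * a * x)^[j] g ∉ N := by
    intro j
    induction j with
    | zero => exact hgN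
    | succ j ih =>
      rw [Function.iterate_succ_apply']
      exact hN _ ih
  exact key n (hx _ hn)

end general

section transfer

/-- The pullback of a representation along an isomorphism of groups. -/
def pull {G H : Type} [Group G] [Group H] (e : H ≃* G) {V : Type} [AddCommGroup V] [Module ℂ V]
    (ρ : Representation ℂ G V) : Representation ℂ H V := ρ.comp e.toMonoidHom

/-- Irreducibility is preserved by pullback along an isomorphism of groups. -/
theorem irreducible_pull {G H : Type} [Group G] [Group H] (e : H ≃* G) {V : Type}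
    [AddCommGroup V] [Module ℂ V] (ρ : Representation ℂ G V) (h : ρ.IsIrreducible) :
    (pull e ρ).IsIrreducible := by
  haveI := h
  haveI hn : Nontrivial (Subrepresentation (pull e ρ)) := by
    obtain ⟨σ, τ, hne⟩ := (inferInstance : Nontrivial (Subrepresentation ρ))
    refine ⟨⟨σ.toSubmodule, fun g v hv => σ.apply_mem_toSubmodule (e g) hv⟩,
      ⟨τ.toSubmodule, fun g v hv => τ.apply_mem_toSubmodule (e g) hv⟩, ?_⟩
    intro heq
    apply hne
    apply Subrepresentation.toSubmodule_injective
    have := congrArg (Subrepresentation.toSubmodule) heq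
    exact this
  refine { eq_bot_or_eq_top := ?_ }
  intro σ
  let σ' : Subrepresentation ρ := ⟨σ.toSubmodule, fun g v hv => by
    have h1 := σ.apply_mem_toSubmodule (e.symm g) hv
    have h2 : pull e ρ (e.symm g) = ρ g := by
      change ρ (e (e.symm g)) = ρ g
      rw [MulEquiv.apply_symm_apply]
    rwa [h2] at h1⟩
  rcases h.eq_bot_or_eq_top σ' with h1 | h1
  · left
    apply Subrepresentation.toSubmodule_injective
    have h2 := congrArg Subrepresentation.toSubmodule h1
    exact h2
  · right
    apply Subrepresentation.toSubmodule_injective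
    have h2 := congrArg Subrepresentation.toSubmodule h1
    exact h2

theorem isIrr_comp {G H : Type} [Group G] [Group H] (e : H ≃* G) {χ : G → ℂ} (h : IsIrr χ) :
    IsIrr fun g => χ (e g) := by
  obtain ⟨V, _, _, _, ρ, hρ, rfl⟩ := h
  exact ⟨V, _, _, inferInstance, pull e ρ, irreducible_pull e ρ hρ, rfl⟩

/-- Transport of `Irr^y` along an isomorphism. -/
def irrAtEquiv {G H : Type} [Group G] [Group H] (e : H ≃* G) (y : H) :
    IrrAt G (e y) ≃ IrrAt H y where
  toFun χ := ⟨fun g => χ.1 (e g), isIrr_comp e χ.2.1, χ.2.2⟩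
  invFun χ := ⟨fun g => χ.1 (e.symm g), isIrr_comp e.symm χ.2.1, by
    change χ.1 (e.symm (e y)) ≠ 0
    have h : e.symm (e y) = y := MulEquiv.symm_apply_apply e y
    rw [h]; exact χ.2.2⟩
  left_inv χ := by
    apply Subtype.ext
    funext g
    change χ.1 (e (e.symm g)) = χ.1 g
    rw [MulEquiv.apply_symm_apply]
  right_inv χ := by
    apply Subtype.ext
    funext g
    change χ.1 (e.symm (e g)) = χ.1 g
    rw [MulEquiv.symm_apply_apply]

/-- If the subnormalizer of `y` is the whole group then `(G, y)` has property (SS). -/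
theorem ss_of_top {G : Type} [Group G] (p : ℕ) (y : G) (h : Sub y = ⊤) : SS p y := by
  let e : Sub y ≃* G := (MulEquiv.subgroupCongr h).trans Subgroup.topEquiv
  have he : ∀ g : Sub y, e g = g.1 := fun g => rfl
  refine ⟨irrAtEquiv e ⟨y, self_mem y⟩, fun χ => ⟨?_, Or.inl rfl⟩⟩
  intro m n hm hn
  have h1 : χ.1 1 = n := by
    rw [← hn]
    change χ.1 1 = χ.1 (e 1)
    rw [map_one]
  have h2 : (m : ℂ) = n := by rw [← hm, ← h1]
  have h3 : m = n := by exact_mod_cast h2
  rw [h3]

end transfer

section group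

/-- The dihedral group of order `12`. -/
abbrev A := DihedralGroup 6

/-- The wreath product of `A` with a group of order two. -/
@[ext]
structure W where
  a : A
  b : A
  e : Bool
deriving DecidableEq

namespace W

instance : One W := ⟨⟨1, 1, false⟩⟩
instance : Mul W :=
  ⟨fun x y => ⟨x.a * (if x.e then y.b else y.a), x.b * (if x.e then y.a else y.b), xor x.e y.e⟩⟩
instance : Inv W :=
  ⟨fun x => ⟨if x.e then x.b⁻¹ else x.a⁻¹, if x.e then x.a⁻¹ else x.b⁻¹, x.e⟩⟩

theorem one_def : (1 : W) = ⟨1, 1, false⟩ := rfl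
theorem mul_def (x y : W) : x * y =
    ⟨x.a * (if x.e then y.b else y.a), x.b * (if x.e then y.a else y.b), xor x.e y.e⟩ := rfl
theorem inv_def (x : W) : x⁻¹ =
  ⟨if x.e then x.b⁻¹ else x.a⁻¹, if x.e then x.a⁻¹ else x.b⁻¹, x.e⟩ := rfl

instance : Group W :=
  Group.ofLeftAxioms
    (by
      rintro ⟨a, b, e⟩ ⟨c, d, f⟩ ⟨u, v, w⟩
      cases e <;> cases f <;> cases w <;> simp [mul_def, mul_assoc])
    (by
      rintro ⟨a, b, e⟩
      simp [mul_def, one_def])
    (by
      rintro ⟨a, b, e⟩
      cases e <;> simp [mul_def, one_def, inv_def])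

/-- `W` as a product. -/
def equiv : W ≃ A × A × Bool where
  toFun x := (x.a, x.b, x.e)
  invFun x := ⟨x.1, x.2.1, x.2.2⟩
  left_inv _ := rfl
  right_inv _ := rfl

instance : Fintype W := Fintype.ofEquiv _ equiv.symm

theorem card_eq : Fintype.card W = 288 := by
  rw [Fintype.card_congr equiv]
  simp only [Fintype.card_prod, Fintype.card_bool, DihedralGroup.card]

end W

open DihedralGroup

/-- the element `x` of order six -/
def xx : W := ⟨r 2, sr 0, false⟩
/-- its `3`-part -/
def x3 : W := ⟨r 2, 1, false⟩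
/-- its `2`-part -/
def x2 : W := ⟨1, sr 0, false⟩
/-- the top involution -/
def tau : W := ⟨1, 1, true⟩

/-- the membership test for the normalizer of `⟨x⟩` -/
def inN (g : W) : Bool := !g.e && (g.b == 1 || g.b == r 3 || g.b == sr 0 || g.b == sr 3)

theorem dec1 : ∀ g : W, inN g = false → inN (g⁻¹ * xx⁻¹ * g * xx) = false := by
  decide +kernel

theorem dec2 : ∀ g : W, inN g = true → g * xx * g⁻¹ = xx ∨ g * xx * g⁻¹ = xx⁻¹ := by
  decide +kernel

theorem dec4 : ∀ w ∈ ([1, x2, x3, x3⁻¹] : List W), ∀ a : A,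
    (⟨a, 1, false⟩ : W) * w * (⟨a, 1, false⟩ : W)⁻¹ = w ∨
      (⟨a, 1, false⟩ : W) * w * (⟨a, 1, false⟩ : W)⁻¹ = w⁻¹ := by
  decide +kernel

theorem dec5 : (∀ w ∈ ([1, x2, x3, x3⁻¹] : List W), tau * w * tau⁻¹ * w = w * (tau * w * tau⁻¹)) ∧
    tau * tau = 1 := by
  decide +kernel

theorem xx_pow : xx ^ 6 = 1 := by decide +kernel

theorem order_xx : orderOf xx = 6 := by
  apply orderOf_eq_of_pow_and_pow_div_prime (by norm_num) xx_pow
  intro p hp hd
  have h1 : p ≤ 6 := Nat.le_of_dvd (by norm_num) hd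
  have h2 : p = 2 ∨ p = 3 := by
    have := hp.two_le
    interval_cases p
    · left; rfl
    · right; rfl
    · omega
    · omega
    · exact absurd hp (by norm_num)
  rcases h2 with rfl | rfl
  · decide +kernel
  · decide +kernel

theorem mem_zpowers_xx {y : W} (h : y ∈ Subgroup.zpowers xx) :
    y ∈ ([1, xx, x3⁻¹, x2, x3, xx⁻¹] : List W) := by
  rw [← mem_powers_iff_mem_zpowers, Submonoid.mem_powers_iff] at h
  obtain ⟨n, rfl⟩ := h
  rw [← Nat.div_add_mod n 6, pow_add, pow_mul, xx_pow, one_pow, one_mul]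
  have h1 : n % 6 < 6 := Nat.mod_lt _ (by norm_num)
  generalize n % 6 = k at h1
  interval_cases k
  all_goals decide +kernel

/-- The elements of prime power order in `⟨x⟩`. -/
theorem cases_ppart {p : ℕ} (hp : p.Prime) {y : W} (h : IsPPart p xx y) :
    y ∈ ([1, x2, x3, x3⁻¹] : List W) := by
  obtain ⟨h1, ⟨k, hk⟩, -⟩ := h
  have h2 := mem_zpowers_xx h1
  have h6 : orderOf y ≠ 6 := by
    rw [hk]
    intro h
    have h3 : (2 : ℕ) ∣ p ^ k := by rw [h]; norm_num
    have h4 : (3 : ℕ) ∣ p ^ k := by rw [h]; norm_num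
    have h5 := (Nat.prime_dvd_prime_iff_eq Nat.prime_two hp).mp (Nat.prime_two.dvd_of_dvd_pow h3)
    have h6 := (Nat.prime_dvd_prime_iff_eq Nat.prime_three hp).mp
      (Nat.prime_three.dvd_of_dvd_pow h4)
    omega
  simp only [List.mem_cons, List.not_mem_nil, or_false] at h2 ⊢
  rcases h2 with h | h | h | h | h | h
  · left; exact h
  · rw [h, order_xx] at h6; exact absurd rfl h6
  · right; right; right; exact h
  · right; left; exact h
  · right; right; left; exact h
  · rw [h, orderOf_inv, order_xx] at h6; exact absurd rfl h6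

/-- The subnormalizers of the elements of prime power order in `⟨x⟩` are the whole group. -/
theorem sub_top {w : W} (hw : w ∈ ([1, x2, x3, x3⁻¹] : List W)) : Sub w = ⊤ := by
  have htau : tau ∈ Sub w :=
    Subgroup.subset_closure (mem_subSet_of_invol dec5.2 (dec5.1 w hw).symm)
  have ha : ∀ a : A, (⟨a, 1, false⟩ : W) ∈ Sub w := by
    intro a
    apply Subgroup.subset_closure
    exact mem_subSet_of_norm (dec4 w hw a)
  have hb : ∀ b : A, (⟨1, b, false⟩ : W) ∈ Sub w := by
    intro b
    have h1 : (⟨1, b, false⟩ : W) = tau * ⟨b, 1, false⟩ * tau := by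
      simp [W.mul_def, tau]
    rw [h1]
    exact mul_mem (mul_mem htau (ha b)) htau
  rw [Subgroup.eq_top_iff']
  rintro ⟨a, b, e⟩
  cases e
  · have h1 : (⟨a, b, false⟩ : W) = ⟨a, 1, false⟩ * ⟨1, b, false⟩ := by simp [W.mul_def]
    rw [h1]
    exact mul_mem (ha a) (hb b)
  · have h1 : (⟨a, b, true⟩ : W) = ⟨a, 1, false⟩ * ⟨1, b, false⟩ * tau := by
      simp [W.mul_def, tau]
    rw [h1]
    exact mul_mem (mul_mem (ha a) (hb b)) htau

theorem dec6 : ∀ g : W, g * xx * g⁻¹ ∈ ([1, xx, x3⁻¹, x2, x3, xx⁻¹] : List W) → inN g = true := by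
  decide +kernel

theorem norm_iff (g : W) : g ∈ Subgroup.normalizer (Subgroup.zpowers xx : Set W) ↔ inN g = true := by
  constructor
  · intro h
    apply dec6
    apply mem_zpowers_xx
    exact (Subgroup.mem_normalizer_iff.mp h xx).mp (Subgroup.mem_zpowers xx)
  · intro h
    exact mem_norm (dec2 g h)

/-- The subnormalizer of `x` is the normalizer of `⟨x⟩`. -/
theorem sub_xx : Sub xx = Subgroup.normalizer (Subgroup.zpowers xx : Set W) := by
  apply le_antisymm
  · rw [Sub, Subgroup.closure_le]
    apply subSet_le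
    · intro g hg
      exact Subgroup.le_normalizer hg
    · intro g hg h
      apply hg
      rw [SetLike.mem_coe, norm_iff] at h ⊢
      by_contra hc
      rw [Bool.not_eq_true] at hc
      rw [dec1 g hc] at h
      exact Bool.false_ne_true h
  · intro g hg
    apply Subgroup.subset_closure
    exact mem_subSet_of_norm (dec2 g ((norm_iff g).mp hg))

theorem mem_sub (g : W) : g ∈ Sub xx ↔ inN g = true := by rw [sub_xx, norm_iff]

theorem card_sub : Nat.card (Sub xx) = 48 := by
  have h1 : Nat.card (Sub xx) = Fintype.card {g : W // inN g = true} := by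
    rw [← Nat.card_eq_fintype_card]
    exact Nat.card_congr (Equiv.subtypeEquivRight mem_sub)
  rw [h1]
  decide +kernel

end group

section bound

open DihedralGroup

theorem schur {G : Type} [Group G] {V : Type} [AddCommGroup V] [Module ℂ V]
    [FiniteDimensional ℂ V] (ρ : Representation ℂ G V) (hρ : ρ.IsIrreducible)
    (T : Module.End ℂ V) (hT : ∀ g, ρ g * T = T * ρ g) : ∃ c : ℂ, T = c • (1 : Module.End ℂ V) := by
  haveI := hρ
  haveI : Nontrivial V := by
    obtain ⟨σ, τ, hne⟩ := (inferInstance : Nontrivial (Subrepresentation ρ))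
    by_contra hn
    rw [not_nontrivial_iff_subsingleton] at hn
    exact hne (Subrepresentation.toSubmodule_injective (Subsingleton.elim _ _))
  obtain ⟨c, hc⟩ := Module.End.exists_eigenvalue T
  obtain ⟨y, hy⟩ := hc.exists_hasEigenvector
  refine ⟨c, ?_⟩
  let σ : Subrepresentation ρ := ⟨LinearMap.ker (T - c • (1 : Module.End ℂ V)), fun g v hv => by
    rw [LinearMap.mem_ker, LinearMap.sub_apply, LinearMap.smul_apply, Module.End.one_apply,
      sub_eq_zero] at hv ⊢
    rw [← Module.End.mul_apply, ← hT, Module.End.mul_apply, hv, map_smul]⟩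
  rcases hρ.eq_bot_or_eq_top σ with h | h
  · exfalso
    have h1 : y ∈ σ.toSubmodule := by
      change y ∈ LinearMap.ker (T - c • (1 : Module.End ℂ V))
      rw [LinearMap.mem_ker, LinearMap.sub_apply, LinearMap.smul_apply, Module.End.one_apply,
        sub_eq_zero]
      exact hy.apply_eq_smul
    have h2 : σ.toSubmodule = ⊥ := by rw [h]; rfl
    rw [h2, Submodule.mem_bot] at h1
    exact hy.2 h1
  · ext v
    have h2 : σ.toSubmodule = ⊤ := by rw [h]; rfl
    have h1 : v ∈ σ.toSubmodule := by rw [h2]; trivial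
    change v ∈ LinearMap.ker (T - c • (1 : Module.End ℂ V)) at h1
    rw [LinearMap.mem_ker, LinearMap.sub_apply, LinearMap.smul_apply, Module.End.one_apply,
      sub_eq_zero] at h1
    rw [h1]; rfl

/-- the type of an element of the dihedral group -/
def refl : A → Multiplicative (ZMod 2)
  | r _ => Multiplicative.ofAdd 0
  | sr _ => Multiplicative.ofAdd 1

theorem refl_mul : ∀ a b : A, refl (a * b) = refl a * refl b := by decide +kernel

theorem e_false {g : W} (h : inN g = true) : g.e = false := by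
  revert g; decide +kernel

theorem dec7 : ∀ g h : A, refl g = 1 → refl h = 1 → g * h = h * g := by decide +kernel

theorem dec8 : ∀ g h : A, g ∈ ([1, r 3, sr 0, sr 3] : List A) → h ∈ ([1, r 3, sr 0, sr 3] : List A) →
    g * h = h * g := by decide +kernel

theorem b_mem {g : W} (h : inN g = true) : g.b ∈ ([1, r 3, sr 0, sr 3] : List A) := by
  revert g; decide +kernel

theorem e_mul {g h : W} (hg : g.e = false) : g * h = ⟨g.a * h.a, g.b * h.b, h.e⟩ := by
  rw [W.mul_def, hg]; simp

theorem comm_of {g h : W} (hg : inN g = true) (hh : inN h = true) (h1 : g.a * h.a = h.a * g.a) :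
    g * h = h * g := by
  rw [e_mul (e_false hg), e_mul (e_false hh), h1, dec8 _ _ (b_mem hg) (b_mem hh), e_false hg,
    e_false hh]

/-- the type homomorphism -/
def typ : Sub xx →* Multiplicative (ZMod 2) where
  toFun g := refl g.1.a
  map_one' := rfl
  map_mul' g h := by
    change refl (g.1 * h.1).a = _
    rw [e_mul (e_false ((mem_sub g.1).mp g.2))]
    exact refl_mul _ _

theorem sr_mem : (⟨sr 0, 1, false⟩ : W) ∈ Sub xx := by
  rw [mem_sub]; decide +kernel

/-- a section of the type homomorphism -/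
def sec (h : Multiplicative (ZMod 2)) : Sub xx :=
  if h = 1 then 1 else ⟨⟨sr 0, 1, false⟩, sr_mem⟩

theorem typ_sec (h : Multiplicative (ZMod 2)) : typ (sec h) = h := by
  unfold sec
  split_ifs with h1
  · rw [map_one, h1]
  · change Multiplicative.ofAdd 1 = h
    revert h; decide

theorem finrank_le {V : Type} [AddCommGroup V] [Module ℂ V] [FiniteDimensional ℂ V]
    (ρ : Representation ℂ (Sub xx) V) (hρ : ρ.IsIrreducible) : Module.finrank ℂ V ≤ 2 := by
  have h := Pool.Agent.Q99.CT.deg_le typ sec typ_sec (fun g h hg hh => by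
    apply Subtype.ext
    exact comm_of ((mem_sub g.1).mp g.2) ((mem_sub h.1).mp h.2) (dec7 _ _ hg hh)) ρ hρ
  have h2 : Nat.card (Multiplicative (ZMod 2)) = 2 := by
    rw [Nat.card_eq_fintype_card]; decide
  rwa [h2] at h

/-- the element `x` in its subnormalizer -/
abbrev sx : Sub xx := ⟨xx, self_mem xx⟩

theorem dec9 : ∀ g h : A, g * h = h * g ∨ g * h = r 2 * (h * g) ∨ g * h = r 4 * (h * g) := by
  decide +kernel

theorem sx4 : (sx ^ 4).1 = ⟨r 2, 1, false⟩ := by
  change xx ^ 4 = _
  decide +kernel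

theorem sx8 : (sx ^ 8).1 = ⟨r 4, 1, false⟩ := by
  change xx ^ 8 = _
  decide +kernel

theorem comm_mod (g h : Sub xx) : g * h = h * g ∨ g * h = sx ^ 4 * (h * g) ∨
    g * h = sx ^ 8 * (h * g) := by
  have hg := (mem_sub g.1).mp g.2
  have hh := (mem_sub h.1).mp h.2
  have hb := dec8 _ _ (b_mem hg) (b_mem hh)
  rcases dec9 g.1.a h.1.a with h1 | h1 | h1
  · left
    apply Subtype.ext
    exact comm_of hg hh h1
  · right; left
    apply Subtype.ext
    change g.1 * h.1 = (sx ^ 4).1 * (h.1 * g.1)
    rw [sx4, e_mul (e_false hg), e_mul (e_false hh), e_mul rfl, h1, hb, e_false hg, e_false hh]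
    simp
  · right; right
    apply Subtype.ext
    change g.1 * h.1 = (sx ^ 8).1 * (h.1 * g.1)
    rw [sx8, e_mul (e_false hg), e_mul (e_false hh), e_mul rfl, h1, hb, e_false hg, e_false hh]
    simp

theorem conj_cases (g : Sub xx) : g * sx = sx * g ∨ g * sx = sx⁻¹ * g := by
  rcases dec2 g.1 ((mem_sub g.1).mp g.2) with h | h
  · left
    apply Subtype.ext
    change g.1 * xx = xx * g.1
    rw [mul_inv_eq_iff_eq_mul] at h
    exact h
  · right
    apply Subtype.ext
    change g.1 * xx = xx⁻¹ * g.1
    rw [mul_inv_eq_iff_eq_mul] at h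
    exact h

theorem conj_g0 : (⟨⟨sr 0, 1, false⟩, sr_mem⟩ : Sub xx) * sx *
    (⟨⟨sr 0, 1, false⟩, sr_mem⟩ : Sub xx)⁻¹ = sx⁻¹ := by
  apply Subtype.ext
  change (⟨sr 0, 1, false⟩ : W) * xx * (⟨sr 0, 1, false⟩ : W)⁻¹ = xx⁻¹
  decide +kernel

theorem sx_pow : sx ^ 6 = 1 := by
  apply Subtype.ext
  change xx ^ 6 = 1
  exact xx_pow

/-- No irreducible character of the subnormalizer has the value `2` or `-2` at `x`. -/
theorem char_ne {V : Type} [AddCommGroup V] [Module ℂ V] [FiniteDimensional ℂ V]
    (ρ : Representation ℂ (Sub xx) V) (hρ : ρ.IsIrreducible) (δ : ℂ) (hδ : δ * δ = 1) :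
    ρ.character sx ≠ 2 * δ := by
  intro hχ
  haveI := hρ
  have hfr := finrank_le ρ hρ
  set X := ρ sx with hX
  set X' := ρ sx⁻¹ with hX'
  have hXX' : X * X' = 1 := by rw [hX, hX', ← map_mul, mul_inv_cancel, map_one]
  have hX6 : X ^ 6 = 1 := by rw [hX, ← map_pow, sx_pow, map_one]
  obtain ⟨c, hc⟩ := schur ρ hρ (X + X') (by
    intro g
    rw [mul_add, add_mul, hX, hX', ← map_mul, ← map_mul, ← map_mul, ← map_mul]
    rcases conj_cases g with h | h
    · have h2 : g * sx⁻¹ = sx⁻¹ * g := by
        rw [eq_inv_mul_iff_mul_eq, ← mul_assoc, ← h, mul_inv_cancel_right]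
      rw [h, h2]
    · have h2 : g * sx⁻¹ = sx * g := by
        rw [mul_inv_eq_iff_eq_mul, mul_assoc, h, mul_inv_cancel_left]
      rw [h, h2, add_comm])
  have hquad : X * X = c • X - 1 := by
    have h1 : X * (X + X') = c • X := by rw [hc, mul_smul_comm, mul_one]
    rw [mul_add, hXX'] at h1
    rw [← h1]; abel
  have htr : ρ.character sx⁻¹ = ρ.character sx := by
    rw [← conj_g0, Representation.char_conj]
  have htr2 : 2 * ρ.character sx = c * Module.finrank ℂ V := by
    have h1 : LinearMap.trace ℂ V (X + X') = c * Module.finrank ℂ V := by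
      rw [hc, map_smul, LinearMap.trace_one, smul_eq_mul]
    rw [map_add] at h1
    have h2 : LinearMap.trace ℂ V X = ρ.character sx := rfl
    have h3 : LinearMap.trace ℂ V X' = ρ.character sx⁻¹ := rfl
    rw [h2, h3, htr] at h1
    rw [← h1]; ring
  rw [hχ] at htr2
  have hn0 : Module.finrank ℂ V ≠ 0 := by
    intro h0
    rw [h0, Nat.cast_zero, mul_zero] at htr2
    have h1 : δ = 0 := by linear_combination htr2 / 4
    rw [h1, mul_zero] at hδ
    exact zero_ne_one hδ
  haveI : Nontrivial V := Module.nontrivial_of_finrank_pos (R := ℂ) (Nat.pos_of_ne_zero hn0)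
  have hn : Module.finrank ℂ V = 1 ∨ Module.finrank ℂ V = 2 := by omega
  rcases hn with hn | hn
  · -- dimension one
    obtain ⟨μ, hμ⟩ := Module.End.exists_eigenvalue X
    obtain ⟨v, hv⟩ := hμ.exists_hasEigenvector
    have hXv : X v = μ • v := hv.apply_eq_smul
    have h1 : μ * μ = c * μ - 1 := by
      have h2 := congrArg (fun T : Module.End ℂ V => T v) hquad
      simp only [Module.End.mul_apply, LinearMap.sub_apply, LinearMap.smul_apply,
        Module.End.one_apply] at h2
      rw [hXv, map_smul, hXv, smul_smul, smul_smul] at h2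
      have h3 : (μ * μ - (c * μ - 1)) • v = 0 := by
        rw [sub_smul, sub_smul, h2, one_smul]; abel
      rcases smul_eq_zero.mp h3 with h4 | h4
      · exact sub_eq_zero.mp h4
      · exact absurd h4 hv.2
    have h6 : μ ^ 6 = 1 := by
      have h2 : (X ^ 6) v = μ ^ 6 • v := by
        rw [Module.End.HasEigenvector.pow_apply hv]
      rw [hX6, Module.End.one_apply] at h2
      have h3 : (μ ^ 6 - 1) • v = 0 := by rw [sub_smul, ← h2, one_smul, sub_self]
      rcases smul_eq_zero.mp h3 with h4 | h4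
      · exact sub_eq_zero.mp h4
      · exact absurd h4 hv.2
    have hnorm : ‖μ‖ = 1 := Complex.norm_eq_one_of_pow_eq_one h6 (by norm_num)
    have hδn : ‖δ‖ = 1 := by
      have : δ ^ 2 = 1 := by rw [pow_two]; exact hδ
      exact Complex.norm_eq_one_of_pow_eq_one this (by norm_num)
    rw [hn, Nat.cast_one, mul_one] at htr2
    have h7 : ‖c * μ‖ = 4 := by
      rw [← htr2, norm_mul, norm_mul, norm_mul, hnorm, hδn]
      norm_num
    have h8 : c * μ = μ * μ + 1 := by rw [h1]; ring
    have h9 : ‖μ * μ + 1‖ ≤ 2 := by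
      refine (norm_add_le _ _).trans ?_
      rw [norm_mul, hnorm, norm_one]; norm_num
    rw [← h8, h7] at h9
    norm_num at h9
  · -- dimension two
    have hc2 : c = 2 * δ := by
      rw [hn] at htr2
      push_cast at htr2
      linear_combination - htr2 / 2
    set Y := X - δ • (1 : Module.End ℂ V) with hY
    have hYY : Y * Y = 0 := by
      rw [hY, sub_mul, mul_sub, mul_sub, hquad, hc2, mul_smul_comm, mul_one, smul_mul_assoc,
        one_mul, smul_mul_smul_comm, mul_one, hδ, one_smul, mul_smul, two_smul]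
      abel
    have hXY : X = δ • 1 + Y := by rw [hY]; abel
    have hX2 : X ^ 2 = 1 + (2 * δ) • Y := by
      rw [pow_two, hXY, mul_add, add_mul, add_mul, hYY, smul_mul_smul_comm, hδ, one_mul, one_smul,
        mul_smul_comm, mul_one, smul_mul_assoc, one_mul, mul_smul, two_smul]
      abel
    have hX4 : X ^ 4 = 1 + (4 * δ) • Y := by
      have : X ^ 4 = X ^ 2 * X ^ 2 := by rw [← pow_add]
      rw [this, hX2, mul_add, add_mul, add_mul, one_mul, mul_one, one_mul, smul_mul_smul_comm, hYY,
        smul_zero, add_zero, add_assoc, ← add_smul]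
      congr 2; ring
    have hX6' : X ^ 6 = 1 + (6 * δ) • Y := by
      have : X ^ 6 = X ^ 4 * X ^ 2 := by rw [← pow_add]
      rw [this, hX2, hX4, mul_add, add_mul, add_mul, one_mul, mul_one, one_mul, smul_mul_smul_comm,
        hYY, smul_zero, add_zero, add_assoc, ← add_smul]
      congr 2; ring
    have hY0 : Y = 0 := by
      rw [hX6] at hX6'
      have h1 : (6 * δ) • Y = 0 := by
        have := hX6'.symm
        rwa [add_eq_left] at this
      rcases smul_eq_zero.mp h1 with h2 | h2
      · exfalso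
        have h3 : δ = 0 := by
          rcases mul_eq_zero.mp h2 with h4 | h4
          · norm_num at h4
          · exact h4
        rw [h3, mul_zero] at hδ
        exact zero_ne_one hδ
      · exact h2
    rw [hY0, smul_zero, add_zero] at hX4
    have hX8 : ρ (sx ^ 8) = 1 := by
      rw [map_pow]
      have : (ρ sx) ^ 8 = X ^ 4 * X ^ 4 := by rw [← pow_add]
      rw [this, hX4, one_mul]
    have hX4' : ρ (sx ^ 4) = 1 := by rw [map_pow]; exact hX4
    have hcomm : ∀ g h : Sub xx, ρ g * ρ h = ρ h * ρ g := by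
      intro g h
      rw [← map_mul, ← map_mul]
      rcases comm_mod g h with h1 | h1 | h1
      · rw [h1]
      · rw [h1, map_mul, hX4', one_mul]
      · rw [h1, map_mul, hX8, one_mul]
    have hscal : ∀ g, ∃ d : ℂ, ρ g = d • (1 : Module.End ℂ V) := fun g =>
      schur ρ hρ (ρ g) fun h => hcomm h g
    obtain ⟨v, hv⟩ := exists_ne (0 : V)
    let σ : Subrepresentation ρ := ⟨Submodule.span ℂ {v}, fun g w hw => by
      obtain ⟨d, hd⟩ := hscal g
      rw [hd]
      exact Submodule.smul_mem _ d hw⟩
    have h1 : finrank ℂ (Submodule.span ℂ {v}) = 1 := finrank_span_singleton hv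
    rcases hρ.eq_bot_or_eq_top σ with h | h
    · have h2 : σ.toSubmodule = ⊥ := by rw [h]; rfl
      have h3 : Submodule.span ℂ {v} = ⊥ := h2
      rw [h3, finrank_bot] at h1
      exact absurd h1 (by norm_num)
    · have h2 : σ.toSubmodule = ⊤ := by rw [h]; rfl
      have h3 : Submodule.span ℂ {v} = ⊤ := h2
      rw [h3, finrank_top, hn] at h1
      exact absurd h1 (by norm_num)

end bound

section witness

open DihedralGroup

/-- a linear character of the dihedral group with `s, t ↦ 1` -/
def lamZ : A → ℤ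
  | r i => if i.val % 2 = 0 then 1 else -1
  | sr i => if i.val % 2 = 0 then 1 else -1

theorem lamZ_mul : ∀ a b : A, lamZ (a * b) = lamZ a * lamZ b := by decide +kernel

/-- the complex-valued version of `lamZ` -/
def lam (a : A) : ℂ := (lamZ a : ℤ)

theorem lam_mul (a b : A) : lam (a * b) = lam a * lam b := by
  rw [lam, lamZ_mul, Int.cast_mul]; rfl

/-- the matrices of the representation induced from `1 × λ` -/
def mat (g : W) : Matrix (Fin 2) (Fin 2) ℂ :=
  if g.e then !![0, lam g.a; lam g.b, 0] else !![lam g.a, 0; 0, lam g.b]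

theorem mat_one : mat 1 = 1 := by
  have h1 : lam 1 = 1 := by
    have : lamZ 1 = 1 := by decide +kernel
    rw [lam, this]; norm_num
  rw [mat, W.one_def]
  simp only [Bool.false_eq_true, if_false, h1]
  exact Matrix.one_fin_two.symm

theorem mat_mul (g h : W) : mat (g * h) = mat g * mat h := by
  obtain ⟨a, b, e⟩ := g
  obtain ⟨c, d, f⟩ := h
  rw [mat, mat, mat, W.mul_def]
  cases e <;> cases f <;>
    simp [lam_mul]

/-- the representation induced from `1 × λ` (as a character of the base group) -/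
def rho : Representation ℂ W (Fin 2 → ℂ) where
  toFun g := Matrix.toLin' (mat g)
  map_one' := by rw [mat_one, Matrix.toLin'_one]; rfl
  map_mul' g h := by rw [mat_mul, Matrix.toLin'_mul]; rfl

theorem rho_char (g : W) : rho.character g = (mat g).trace := by
  change LinearMap.trace ℂ (Fin 2 → ℂ) (Matrix.toLin' (mat g)) = _
  exact Matrix.trace_toLin'_eq _

theorem lam_r2 : lam (r 2) = 1 := by
  have : lamZ (r 2) = 1 := by decide +kernel
  rw [lam, this]; norm_num

theorem lam_sr0 : lam (sr 0) = 1 := by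
  have : lamZ (sr 0) = 1 := by decide +kernel
  rw [lam, this]; norm_num

theorem lam_r1 : lam (r 1) = -1 := by
  have : lamZ (r 1) = -1 := by decide +kernel
  rw [lam, this]; norm_num

theorem lam_one : lam 1 = 1 := by
  have : lamZ 1 = 1 := by decide +kernel
  rw [lam, this]; norm_num

theorem rho_xx : rho.character xx = 2 := by
  rw [rho_char]
  have : mat xx = !![lam (r 2), 0; 0, lam (sr 0)] := rfl
  rw [this, lam_r2, lam_sr0, Matrix.trace_fin_two]
  simp
  norm_num

theorem rho_irr : rho.IsIrreducible := by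
  have hnt : Nontrivial (Subrepresentation rho) := by
    refine ⟨⟨⊥, ⊤, ?_⟩⟩
    intro h
    have h1 : (⊥ : Subrepresentation rho).toSubmodule = (⊤ : Subrepresentation rho).toSubmodule := by
      rw [h]
    have h2 : (⊥ : Submodule ℂ (Fin 2 → ℂ)) = ⊤ := h1
    exact bot_ne_top h2
  haveI := hnt
  refine { eq_bot_or_eq_top := ?_ }
  intro σ
  by_cases h0 : σ.toSubmodule = ⊥
  · left
    exact Subrepresentation.toSubmodule_injective h0
  · right
    apply Subrepresentation.toSubmodule_injective
    have hτ : ∀ v : Fin 2 → ℂ, rho tau v = ![v 1, v 0] := by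
      intro v
      change Matrix.toLin' (mat tau) v = _
      have : mat tau = !![0, lam 1; lam 1, 0] := rfl
      rw [this, lam_one, Matrix.toLin'_apply]
      ext i
      fin_cases i <;> simp [Matrix.mulVec, dotProduct, Fin.sum_univ_two]
    have hd : ∀ v : Fin 2 → ℂ, rho ⟨r 1, 1, false⟩ v = ![- v 0, v 1] := by
      intro v
      change Matrix.toLin' (mat ⟨r 1, 1, false⟩) v = _
      have : mat ⟨r 1, 1, false⟩ = !![lam (r 1), 0; 0, lam 1] := rfl
      rw [this, lam_one, lam_r1, Matrix.toLin'_apply]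
      ext i
      fin_cases i <;> simp [Matrix.mulVec, dotProduct, Fin.sum_univ_two]
    obtain ⟨v, hv, hv0⟩ := Submodule.exists_mem_ne_zero_of_ne_bot h0
    have e0 : ∀ w ∈ σ.toSubmodule, (![w 0, 0] : Fin 2 → ℂ) ∈ σ.toSubmodule := by
      intro w hw
      have h1 := σ.apply_mem_toSubmodule ⟨r 1, 1, false⟩ hw
      rw [hd] at h1
      have h2 := σ.toSubmodule.smul_mem (2⁻¹ : ℂ) (σ.toSubmodule.sub_mem hw h1)
      have h3 : (2⁻¹ : ℂ) • (w - ![- w 0, w 1]) = ![w 0, 0] := by
        ext i
        fin_cases i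
        · change (2⁻¹ : ℂ) * (w 0 - - w 0) = w 0
          ring
        · change (2⁻¹ : ℂ) * (w 1 - w 1) = 0
          ring
      rwa [h3] at h2
    have hone : (![1, 0] : Fin 2 → ℂ) ∈ σ.toSubmodule := by
      by_cases hv1 : v 0 = 0
      · have hv2 : v 1 ≠ 0 := by
          intro h
          apply hv0
          ext i
          fin_cases i
          · exact hv1
          · exact h
        have h1 := σ.apply_mem_toSubmodule tau hv
        rw [hτ] at h1
        have h2 := e0 _ h1
        have h3 := σ.toSubmodule.smul_mem (v 1)⁻¹ h2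
        have h4 : (v 1)⁻¹ • (![(![v 1, v 0] : Fin 2 → ℂ) 0, 0] : Fin 2 → ℂ) = ![1, 0] := by
          ext i
          fin_cases i
          · simp [hv2]
          · simp
        rwa [h4] at h3
      · have h2 := e0 _ hv
        have h3 := σ.toSubmodule.smul_mem (v 0)⁻¹ h2
        have h4 : (v 0)⁻¹ • (![v 0, 0] : Fin 2 → ℂ) = ![1, 0] := by
          ext i
          fin_cases i
          · simp [hv1]
          · simp
        rwa [h4] at h3
    have htwo : (![0, 1] : Fin 2 → ℂ) ∈ σ.toSubmodule := by
      have h1 := σ.apply_mem_toSubmodule tau hone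
      rw [hτ] at h1
      simpa using h1
    have htop : σ.toSubmodule = ⊤ := by
      rw [Submodule.eq_top_iff']
      intro w
      have h1 := σ.toSubmodule.add_mem (σ.toSubmodule.smul_mem (w 0) hone)
        (σ.toSubmodule.smul_mem (w 1) htwo)
      have h2 : w 0 • (![1, 0] : Fin 2 → ℂ) + w 1 • (![0, 1] : Fin 2 → ℂ) = w := by
        ext i
        fin_cases i <;> simp
      rwa [h2] at h1
    exact htop

end witness

/-- Q1 is false.  More precisely there are a group `G` of order `288` and an element `x` of order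
`6` such that for every prime `p` and the `p`-part `y` of `x` one has `Sub_G(y) = G`, so that
`(G, y)` has property (SS), but no bijection from `Irr^x(G)` to `Irr^x(Sub_G(x))` preserves the
values at `x` up to sign; in fact some `χ ∈ Irr(G)` has `χ(x) = 2`, and no irreducible character
of `Sub_G(x)`, a group of order `48`, has the value `2` or `-2` at `x`. -/
theorem result : ¬ Q1 ∧
    ∃ (G : Type) (_ : Group G) (_ : Fintype G) (x : G), Fintype.card G = 288 ∧ orderOf x = 6 ∧
      (∀ p : ℕ, p.Prime → ∀ y : G, IsPPart p x y → Sub y = ⊤ ∧ SS p y) ∧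
      Sub x = Subgroup.normalizer (Subgroup.zpowers x : Set G) ∧ Nat.card (Sub x) = 48 ∧
      (∃ χ : G → ℂ, IsIrr χ ∧ χ x = 2) ∧
      (∀ ψ : Sub x → ℂ, IsIrr ψ → ψ ⟨x, self_mem x⟩ ≠ 2 ∧ ψ ⟨x, self_mem x⟩ ≠ -2) ∧
      ¬ ∃ f : IrrAt G x ≃ IrrAt (Sub x) ⟨x, self_mem x⟩,
        ∀ χ : IrrAt G x, SameUpToSign χ.1 x (f χ).1 ⟨x, self_mem x⟩ := by
  have hSS : ∀ p : ℕ, p.Prime → ∀ y : W, IsPPart p xx y → Sub y = ⊤ ∧ SS p y := by
    intro p hp y hy
    have h1 := sub_top (cases_ppart hp hy)
    exact ⟨h1, ss_of_top p y h1⟩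
  have hψ : ∀ ψ : Sub xx → ℂ, IsIrr ψ → ψ ⟨xx, self_mem xx⟩ ≠ 2 ∧ ψ ⟨xx, self_mem xx⟩ ≠ -2 := by
    rintro ψ ⟨V, _, _, _, ρ, hρ, rfl⟩
    constructor
    · have := char_ne ρ hρ 1 (by norm_num)
      rwa [mul_one] at this
    · have := char_ne ρ hρ (-1) (by norm_num)
      intro h
      apply this
      rw [h]; norm_num
  have hχ : IsIrr rho.character := ⟨_, _, _, inferInstance, rho, rho_irr, rfl⟩
  have hno : ¬ ∃ f : IrrAt W xx ≃ IrrAt (Sub xx) ⟨xx, self_mem xx⟩,
      ∀ χ : IrrAt W xx, SameUpToSign χ.1 xx (f χ).1 ⟨xx, self_mem xx⟩ := by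
    rintro ⟨f, hf⟩
    have h2 : rho.character xx ≠ 0 := by rw [rho_xx]; norm_num
    have h1 := hf ⟨rho.character, hχ, h2⟩
    obtain ⟨h3, h4⟩ := hψ _ (f ⟨rho.character, hχ, h2⟩).2.1
    have key : ∀ z : ℂ, z ≠ 2 → z ≠ -2 → ¬ (rho.character xx = z ∨ rho.character xx = -z) := by
      intro z hz2 hz2' h
      rw [rho_xx] at h
      rcases h with h | h
      · exact hz2 h.symm
      · apply hz2'
        rw [h, neg_neg]
    exact key _ h3 h4 h1
  refine ⟨?_, W, inferInstance, inferInstance, xx, W.card_eq, order_xx, hSS, sub_xx, card_sub,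
    ⟨rho.character, hχ, rho_xx⟩, hψ, hno⟩
  intro hQ
  obtain ⟨f, hf, -⟩ := hQ W xx fun p hp _ y hy => (hSS p hp y hy).2
  exact hno ⟨f, hf⟩

end Pool.Agent.Results.MP_3a6623_al.WreathCounterexample
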